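import Pool.Agent.OddZetaG.TabFull
import Pool.Agent.OddZetaV.D94T.Data

/-! Kernel check of a part of the table.  Seat: helper57. -/

namespace Pool.Agent.OddZetaV.D94T

open Pool.Agent.OddZetaG Pool.Agent.OddZetaG.Tab

set_option maxRecDepth 100000 in
theorem ok_T1b0 : T1b0.all (okCell 94 4 PL ML) = true := by decide +kernel

set_option maxRecDepth 100000 in
theorem ok_T1b1 : T1b1.all (okCell 94 4 PL ML) = true := by decide +kernel

set_option maxRecDepth 100000 in
theorem ok_T1b2 : T1b2.all (okCell 94 4 PL ML) = true := by decide +kernel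

set_option maxRecDepth 100000 in
theorem ok_T1b3 : T1b3.all (okCell 94 4 PL ML) = true := by decide +kernel

set_option maxRecDepth 100000 in
theorem ok_T1b4 : T1b4.all (okCell 94 4 PL ML) = true := by decide +kernel

set_option maxRecDepth 100000 in
theorem ok_T1b5 : T1b5.all (okCell 94 4 PL ML) = true := by decide +kernel

set_option maxRecDepth 100000 in
theorem ok_T1b6 : T1b6.all (okCell 94 4 PL ML) = true := by decide +kernel

set_option maxRecDepth 100000 in
theorem ok_T1b7 : T1b7.all (okCell 94 4 PL ML) = true := by decide +kernel

set_option maxRecDepth 100000 in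
theorem ok_T1b8 : T1b8.all (okCell 94 4 PL ML) = true := by decide +kernel

set_option maxRecDepth 100000 in
theorem ok_T1b9 : T1b9.all (okCell 94 4 PL ML) = true := by decide +kernel

end Pool.Agent.OddZetaV.D94T
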