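import Pool.Agent.OddZetaG.TabFull
import Pool.Agent.OddZetaV.D94T.Data

/-! Kernel check of a part of the table.  Seat: helper57. -/

namespace Pool.Agent.OddZetaV.D94T

open Pool.Agent.OddZetaG Pool.Agent.OddZetaG.Tab

set_option maxRecDepth 100000 in
theorem ok_T1a : T1a.all (okCell 94 4 PL ML) = true := by decide +kernel

set_option maxRecDepth 100000 in
theorem ok_T0 : T0.all (okCellF 94 4 27 30 PL ML 1) = true := by decide +kernel

set_option maxRecDepth 100000 in
theorem chain_T0 : chain 1 94 T0 1 32 = true := by decide +kernel

set_option maxRecDepth 100000 in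
theorem chain_T1b : chain 1 32 T1b 1 1 = true := by decide +kernel

set_option maxRecDepth 100000 in
theorem chain_T1 : chain 0 1 (T1a ++ T1b) 1 1 = true := by decide +kernel

set_option maxRecDepth 100000 in
theorem pos_T0 : T0.all (fun e => Nat.blt 0 e.1) = true := by decide +kernel

set_option maxRecDepth 100000 in
theorem pos_T1b : T1b.all (fun e => Nat.blt 0 e.1) = true := by decide +kernel

end Pool.Agent.OddZetaV.D94T
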