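import Pool.Agent.OddZetaG.TabFull
import Pool.Agent.OddZetaV.D94T.Data

/-! Kernel check of a part of the table.  Seat: helper57. -/

namespace Pool.Agent.OddZetaV.D94T

open Pool.Agent.OddZetaG Pool.Agent.OddZetaG.Tab

def Bf (i : Nat) : Nat :=
  match i with
  | 0 => 7595127293
  | 1 => 2524416014
  | 2 => 1261555136
  | 3 => 756845896
  | 4 => 504562437
  | 5 => 360415111
  | 6 => 270326046
  | 7 => 210266959
  | 8 => 168225175
  | 9 => 137648967
  | 10 => 114716359
  | 11 => 97075602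
  | 12 => 83214759
  | 13 => 72125936
  | 14 => 63116077
  | _ => 0

set_option maxRecDepth 100000 in
theorem num_T0 : sumUb 0 T0 ≤ 333000000463 := Nat.le_of_ble_eq_true (by decide +kernel)

set_option maxRecDepth 100000 in
theorem num_T1b : sumUb 0 T1b ≤ 458906640860 := Nat.le_of_ble_eq_true (by decide +kernel)

set_option maxRecDepth 100000 in
theorem num_1 : sumUb (0 + 1) (T1a ++ T1b) ≤ Bf 0 := Nat.le_of_ble_eq_true (by decide +kernel)

set_option maxRecDepth 100000 in
theorem num_2 : sumUb (1 + 1) (T1a ++ T1b) ≤ Bf 1 := Nat.le_of_ble_eq_true (by decide +kernel)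

set_option maxRecDepth 100000 in
theorem num_3 : sumUb (2 + 1) (T1a ++ T1b) ≤ Bf 2 := Nat.le_of_ble_eq_true (by decide +kernel)

set_option maxRecDepth 100000 in
theorem num_4 : sumUb (3 + 1) (T1a ++ T1b) ≤ Bf 3 := Nat.le_of_ble_eq_true (by decide +kernel)

set_option maxRecDepth 100000 in
theorem num_5 : sumUb (4 + 1) (T1a ++ T1b) ≤ Bf 4 := Nat.le_of_ble_eq_true (by decide +kernel)

set_option maxRecDepth 100000 in
theorem num_6 : sumUb (5 + 1) (T1a ++ T1b) ≤ Bf 5 := Nat.le_of_ble_eq_true (by decide +kernel)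

set_option maxRecDepth 100000 in
theorem num_7 : sumUb (6 + 1) (T1a ++ T1b) ≤ Bf 6 := Nat.le_of_ble_eq_true (by decide +kernel)

set_option maxRecDepth 100000 in
theorem num_8 : sumUb (7 + 1) (T1a ++ T1b) ≤ Bf 7 := Nat.le_of_ble_eq_true (by decide +kernel)

set_option maxRecDepth 100000 in
theorem num_9 : sumUb (8 + 1) (T1a ++ T1b) ≤ Bf 8 := Nat.le_of_ble_eq_true (by decide +kernel)

set_option maxRecDepth 100000 in
theorem num_10 : sumUb (9 + 1) (T1a ++ T1b) ≤ Bf 9 := Nat.le_of_ble_eq_true (by decide +kernel)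

set_option maxRecDepth 100000 in
theorem num_11 : sumUb (10 + 1) (T1a ++ T1b) ≤ Bf 10 := Nat.le_of_ble_eq_true (by decide +kernel)

set_option maxRecDepth 100000 in
theorem num_12 : sumUb (11 + 1) (T1a ++ T1b) ≤ Bf 11 := Nat.le_of_ble_eq_true (by decide +kernel)

set_option maxRecDepth 100000 in
theorem num_13 : sumUb (12 + 1) (T1a ++ T1b) ≤ Bf 12 := Nat.le_of_ble_eq_true (by decide +kernel)

set_option maxRecDepth 100000 in
theorem num_14 : sumUb (13 + 1) (T1a ++ T1b) ≤ Bf 13 := Nat.le_of_ble_eq_true (by decide +kernel)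

set_option maxRecDepth 100000 in
theorem num_15 : sumUb (14 + 1) (T1a ++ T1b) ≤ Bf 14 := Nat.le_of_ble_eq_true (by decide +kernel)

end Pool.Agent.OddZetaV.D94T
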