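import Pool.Agent.OddZetaG.SizeIneqG
import Pool.Agent.OddZetaG.SBound
import Pool.Agent.OddZetaG.OneNeD94

/-!
The size of the linear forms for the data `D94`.  Seat: helper57.
-/

open Finset

namespace Pool.Agent.OddZetaV.D94T

open Pool.Agent.OddZetaG

theorem P_mem {i : ℕ} (hi : i ∈ D94.P) : D94.h i ∈ [27, 28, 29, 30, 31, 32, 33, 34, 35, 36, 37, 38, 39, 40] := by
  revert i
  decide

theorem M_mem {i : ℕ} (hi : i ∈ D94.M) : D94.h i ≤ 6 := by
  revert i
  decide

theorem cert : numG D94 6 77 10 * 27182818286 ^ 3238 ≤ denG D94 6 77 10 * 10000000000 ^ 3238 := by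
  decide +kernel

theorem s1 : slopeG D94 6 77 10 ≤ 62830 / 10000 - 1 / 100 := by
  decide +kernel

theorem s2 : slopeE D94 6 35 80 ≤ 62830 / 10000 - 1 / 100 := by
  decide +kernel

theorem s3 : slopeE2 D94 6 80 ≤ 62830 / 10000 - 1 / 100 := by
  decide +kernel

theorem hP1 : ∀ i ∈ D94.P, 2 * 6 + 1 < 2 * D94.h i := by decide

theorem hP2 : ∀ i ∈ D94.P, 2 * D94.h i < D94.C := by decide

theorem hM : ∀ i ∈ D94.M, 2 * D94.h i < 2 * 6 + 1 := by decide

theorem ineq94 (η : ℝ) (hη : 0 < η) :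
    GGG D94 6 η - 2 * Real.pi * η ≤ -(3238 / 4) - 1 / 100 * η := by
  have h := ineqG D94 (c := 6) (u := 77) (v := 10) (Q := 3238) (E := 35) (E2 := 80) (d := 1 / 100)
    (by norm_num) (by norm_num) (by norm_num) (by norm_num) hP1 hP2 hM (by decide)
    (by unfold aP bb; decide) cert s1 s2 s3 η hη
  push_cast at h
  linarith

theorem S_bound : ∃ N : ℕ, ∀ n ≥ N, Odd n → |S D94 n| ≤ Real.exp (-(809 : ℝ) * n) := by
  refine S_bound_of D94 D94_OK 6 (fun i hi => M_mem hi) 6 (by norm_num) (by decide) (al := 3238 / 4)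
    (d := 1 / 100) (by norm_num) (by norm_num) (N0 := 2) (Cst := CRG D94) (A := ARG D94) ?_
  intro n hn hodd y
  exact R_boundG D94 6 hP1 hP2 hM (by decide) (al := 3238 / 4) (d := 1 / 100) ineq94 n hodd hn y

end Pool.Agent.OddZetaV.D94T
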