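import Pool.Agent.OddZetaG.TabMain
import Pool.Agent.OddZetaG.OneNeD94
import Pool.Agent.OddZetaV.D94T.CheckA
import Pool.Agent.OddZetaV.D94T.Num
import Pool.Agent.OddZetaV.D94T.Check0
import Pool.Agent.OddZetaV.D94T.Check1
import Pool.Agent.OddZetaV.D94T.Check2
import Pool.Agent.OddZetaV.D94T.Check3
import Pool.Agent.OddZetaV.D94T.Check4
import Pool.Agent.OddZetaV.D94T.Check5

/-! The table theorem for the data `D94T`.  Seat: helper57. -/

open Finset

namespace Pool.Agent.OddZetaV.D94T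

open Pool.Agent.OddZetaG Pool.Agent.OddZetaG.Tab

abbrev D : Dat := Pool.Agent.OddZetaG.D94

theorem D_lists : Lists D PL ML where
  P_eq := by decide
  M_eq := by decide
  lt := by decide
  Cpos := by decide

theorem ok_T1b : T1b.all (okCell 94 4 PL ML) = true := by
  unfold T1b
  simp only [List.all_append, ok_T1b0, ok_T1b1, ok_T1b2, ok_T1b3, ok_T1b4, ok_T1b5, ok_T1b6, ok_T1b7, ok_T1b8, ok_T1b9,
    ok_T1b10, ok_T1b11, ok_T1b12, ok_T1b13, ok_T1b14, ok_T1b15, ok_T1b16, ok_T1b17, ok_T1b18,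
    ok_T1b19, ok_T1b20, ok_T1b21, ok_T1b22, ok_T1b23, ok_T1b24, ok_T1b25, ok_T1b26, ok_T1b27,
    ok_T1b28, ok_T1b29, ok_T1b30, ok_T1b31, ok_T1b32, ok_T1b33, ok_T1b34, ok_T1b35, ok_T1b36,
    ok_T1b37, ok_T1b38, ok_T1b39, ok_T1b40, ok_T1b41, ok_T1b42, ok_T1b43, ok_T1b44, ok_T1b45,
    ok_T1b46, ok_T1b47, ok_T1b48, ok_T1b49, ok_T1b50, ok_T1b51, ok_T1b52, ok_T1b53, ok_T1b54,
    ok_T1b55, ok_T1b56, ok_T1b57, ok_T1b58,
    Bool.and_self]

theorem table : ∃ d : ℕ → ℕ → ℕ, ∃ N : ℕ, ∀ n ≥ N, n.Prime →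
      (∀ p : ℕ, p.Prime → p ≠ n → D.C * n < p ^ 2 → p ≤ D.C * n →
        ∀ l ∈ poles D n, bnd D n l p ≤ d n p) ∧
      ∑ p ∈ (Finset.Icc 1 (D.C * n)).filter (fun p => p.Prime ∧ D.C * n < p ^ 2 ∧ p ≠ n),
        (d n p : ℝ) * Real.log p ≤ (8078 / 10 : ℝ) * n := by
  refine sum_bound_of (T0 := T0) (T1a := T1a) (T1b := T1b) D_lists (by decide) (by decide)
    (u := 1) (v := 32) (Ym := 1) 15 (by decide) (by decide) (by decide) ?_ ?_
    chain_T0 chain_T1b chain_T1 ?_ ?_ 333000000463 458906640860 Bf num_T0 num_T1b ?_ ?_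
  · have h := ok_T0
    rw [List.all_eq_true] at h
    exact h
  · intro e he
    rw [List.mem_append] at he
    rcases he with he | he
    · have h := ok_T1a
      rw [List.all_eq_true] at h
      exact h e he
    · have h := ok_T1b
      rw [List.all_eq_true] at h
      exact h e he
  · have h := pos_T0
    rw [List.all_eq_true] at h
    intro e he
    have := h e he
    rwa [Nat.blt_eq] at this
  · have h := pos_T1b
    rw [List.all_eq_true] at h
    intro e he
    have := h e he
    rwa [Nat.blt_eq] at this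
  · intro i hi
    interval_cases i
    · exact num_1
    · exact num_2
    · exact num_3
    · exact num_4
    · exact num_5
    · exact num_6
    · exact num_7
    · exact num_8
    · exact num_9
    · exact num_10
    · exact num_11
    · exact num_12
    · exact num_13
    · exact num_14
    · exact num_15
  · have h : (333000000463 : ℕ) + 458906640860 + ∑ i ∈ Finset.range 15, Bf i = 806126279090 := by simp [Finset.sum_range_succ, Bf]
    rw [h, show PL.length = 21 by decide, show D.k = 4 by decide]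
    norm_num

end Pool.Agent.OddZetaV.D94T
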